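import Pool.Agent.V8H3.GC.Cert

/-!
# The doubled cycle: explicit data
-/

set_option autoImplicit false
set_option maxRecDepth 100000

noncomputable section

namespace Pool.Agent.V8H3.S6

open Pool.Agent.V8H3.GC Pool.Agent.V8H54.LT

/-- data -/
def rows : List ℕ := [17179659488, 17179030496, 17179030496, 17179868928, 17179868928, 15461253127, 16749953031, 16749953031, 15039725598, 15039725598, 15063842841, 15063842841, 15158214686, 15158214686, 15535702041, 15535702041, 17045651486, 17045651486, 16644046873, 16644046873, 15033172799, 15032389599, 15032389599, 15032400959, 15032400959, 15032447199, 15032447199, 15032631359, 15032631359, 15033368799, 15033368799, 2147483647, 2147483647, 2147483647]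

/-- data -/
def V : List (ℕ × ℕ × ℕ) := [(0, 0, 0), (1, 2, 0), (3, 4, 0), (5, 5, 1), (6, 7, 1), (8, 9, 1), (10, 11, 1), (12, 13, 1), (14, 15, 1), (16, 17, 1), (18, 19, 1), (20, 20, 2), (21, 22, 2), (23, 24, 2), (25, 26, 2), (27, 28, 2), (29, 30, 2), (31, 31, 3), (32, 33, 3)]

/-- data -/
def S : List (List ℕ × ℕ) := [([0, 3, 11, 17], 2), ([0, 3, 11, 18], 1), ([1, 3, 11, 17], 1), ([1, 3, 11, 18], 2), ([1, 5, 11, 17], 2), ([1, 5, 11, 18], 1), ([1, 5, 12, 17], 1), ([1, 5, 12, 18], 2), ([2, 5, 11, 17], 1), ([2, 5, 11, 18], 2), ([2, 5, 12, 17], 2), ([2, 5, 12, 18], 1), ([1, 4, 12, 17], 2), ([1, 4, 12, 18], 1), ([0, 4, 12, 17], 1), ([0, 4, 12, 18], 2), ([0, 6, 12, 17], 2), ([0, 6, 12, 18], 1), ([0, 6, 13, 17], 1), ([0, 6, 13, 18], 2), ([2, 6, 12, 17], 1), ([2, 6, 12, 18], 2), ([2, 6, 13, 17], 2), ([2, 6, 13, 18], 1), ([0, 3, 13, 17], 2), ([0, 3, 13, 18], 1), ([1, 3, 13, 17], 1), ([1, 3, 13, 18],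 2), ([1, 7, 13, 17], 2), ([1, 7, 13, 18], 1), ([1, 7, 14, 17], 1), ([1, 7, 14, 18], 2), ([2, 7, 13, 17], 1), ([2, 7, 13, 18], 2), ([2, 7, 14, 17], 2), ([2, 7, 14, 18], 1), ([1, 4, 14, 17], 2), ([1, 4, 14, 18], 1), ([0, 4, 14, 17], 1), ([0, 4, 14, 18], 2), ([0, 8, 14, 17], 2), ([0, 8, 14, 18], 1), ([0, 8, 15, 17], 1), ([0, 8, 15, 18], 2), ([2, 8, 14, 17], 1), ([2, 8, 14, 18], 2), ([2, 8, 15, 17], 2), ([2, 8, 15, 18], 1), ([0, 3, 15, 17], 2), ([0, 3, 15, 18], 1), ([1, 3, 15, 17], 1), ([1, 3, 15, 18], 2), ([1, 9, 15, 17], 2), ([1, 9, 15, 18], 1), ([1, 9, 16, 17], 1), ([1, 9, 16, 18], 2), ([2, 9, 15, 17], 1), ([2, 9, 15, 18], 2), ([2, 9, 16, 17], 2), ([2, 9, 16, 18], 1), ([1, 4, 16, 17], 2), ([1, 4, 16, 18], 1), ([0, 4, 16, 17], 1), ([0, 4, 16, 18], 2), ([0, 10, 16, 17], 2), ([0, 10, 16, 18], 1), ([0, 10, 11, 17], 1), ([0, 10, 11, 18], 2), ([2, 10, 16, 17], 1), ([2, 10, 16, 18], 2), ([2, 10, 11,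 17], 2), ([2, 10, 11, 18], 1)]

theorem sym : symR 34 rows = true := by decide +kernel

theorem chk_VS : chk 34 3 3 (adjR rows) V S = true := by decide +kernel

theorem numU_V : numU V = 4 := by decide +kernel

end Pool.Agent.V8H3.S6
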